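import Pool.Agent.LCW.Final

/-!
For every fixed `c`, the graphs of linear clique-width at most `c` are recognised in polynomial
time (Q1 of MP_0f6c86_lc).
-/

namespace Pool.Agent.Results.MP_0f6c86_lc.InP

open Pool.Agent.LCW

/-- For every fixed `c`, the decision problem LCW_c is in the class P: there is a Turing machine
that decides, in time polynomial in the length of the input, whether the input is the adjacency
matrix of a graph of linear clique-width at most `c`. -/
theorem result (c : ℕ) : lcwLang c ∈ P :=
  lcwLang_mem_P c

end Pool.Agent.Results.MP_0f6c86_lc.InP
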